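import Pool.Agent.Helper52.MQ.ConfigB

/-!
# Generic position of the fixed points of a self-map of projective space

For `(m + D).choose D ≤ d` there is a nonzero polynomial `R` in the coefficients of a tuple of forms
of degree `d` in `m + 1` variables such that `R ≠ 0` implies: no `(m + D).choose D` distinct fixed
points lie on a hypersurface of degree `D`.
-/

set_option autoImplicit false

namespace Pool.Agent.Helper52.MQ

open MvPolynomial
open Pool.Agent.Helper86.MQ (Idx tf Fix Prop' GenPos)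

section ring

variable {m d h : ℕ}

/-- the value of the form over a ring -/
noncomputable def tg {B : Type*} [CommRing B] (c : Idx m d → B) (x : Fin (m + 1) → B)
    (i : Fin (m + 1)) : B :=
  ∑ e : {s : Fin (m + 1) →₀ ℕ // s.degree ≤ d}, if e.1.degree = d then c (i, e) * mo e.1 x else 0

theorem tg_eq {A : Type*} [Field A] (c : Idx m d → A) (x : Fin (m + 1) → A) (i : Fin (m + 1)) :
    tg c x i = tf c x i := rfl

theorem map_mo {B B' : Type*} [CommRing B] [CommRing B'] (φ : B →+* B') (e : Fin (m + 1) →₀ ℕ)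
    (x : Fin (m + 1) → B) : φ (mo e x) = mo e (fun j => φ (x j)) := by
  unfold mo
  rw [map_prod]
  simp only [map_pow]

theorem map_tg {B B' : Type*} [CommRing B] [CommRing B'] (φ : B →+* B') (c : Idx m d → B)
    (x : Fin (m + 1) → B) (i : Fin (m + 1)) :
    φ (tg c x i) = tg (fun q => φ (c q)) (fun j => φ (x j)) i := by
  unfold tg
  rw [map_sum]
  refine Finset.sum_congr rfl fun e _ => ?_
  split_ifs
  · rw [map_mul, map_mo]
  · exact map_zero φ

/-- the variables -/
abbrev Vr (m d h : ℕ) : Type := Idx m d ⊕ ((Fin h × Fin (m + 1)) ⊕ Unit)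

/-- the equations of a configuration, over a ring -/
noncomputable def eqs {B : Type*} [CommRing B] (k : Fin h → Fin (m + 1))
    (i : Fin h → Fin h → Fin (m + 1)) (ε : Fin h → (Fin (m + 1) →₀ ℕ)) (c : Idx m d → B)
    (x : Fin h → Fin (m + 1) → B) (z : B) : (Fin h ⊕ (Fin h × Fin (m + 1))) ⊕ Bool → B
  | .inl (.inl a) => x a (k a) - 1
  | .inl (.inr (a, j)) => tg c (x a) j - tg c (x a) (k a) * x a j
  | .inr true => (Matrix.of fun a b => mo (ε b) (x a)).det
  | .inr false => z * (∏ a, ∏ b, if a = b then 1 else (x b (i a b) - x a (i a b) * x b (k a))) - 1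

theorem map_eqs {B B' : Type*} [CommRing B] [CommRing B'] (φ : B →+* B') (k : Fin h → Fin (m + 1))
    (i : Fin h → Fin h → Fin (m + 1)) (ε : Fin h → (Fin (m + 1) →₀ ℕ)) (c : Idx m d → B)
    (x : Fin h → Fin (m + 1) → B) (z : B) (o : (Fin h ⊕ (Fin h × Fin (m + 1))) ⊕ Bool) :
    φ (eqs k i ε c x z o) = eqs k i ε (fun q => φ (c q)) (fun a j => φ (x a j)) (φ z) o := by
  classical
  rcases o with (a | ⟨a, j⟩) | (_ | _)
  · simp [eqs]
  · simp only [eqs]
    rw [map_sub, map_mul, map_tg, map_tg]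
  · simp only [eqs]
    rw [map_sub, map_mul, map_prod, map_one]
    congr 2
    refine Finset.prod_congr rfl fun a _ => ?_
    rw [map_prod]
    refine Finset.prod_congr rfl fun b _ => ?_
    split_ifs
    · exact map_one φ
    · rw [map_sub, map_mul]
  · simp only [eqs]
    rw [RingHom.map_det]
    congr 1
    ext a b
    exact map_mo φ _ _

theorem exists_R (hh : h ≤ d) (k : Fin h → Fin (m + 1)) (i : Fin h → Fin h → Fin (m + 1)) {D : ℕ}
    (ε : Fin h → (Fin (m + 1) →₀ ℕ)) (hε : ∀ b, (ε b).degree = D) (hinj : Function.Injective ε) :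
    ∃ R : MvPolynomial (Idx m d) ℤ, R ≠ 0 ∧ ∀ (K : Type) [Field K] (c : Idx m d → K)
      (x : Fin h → Fin (m + 1) → K) (z : K), (∀ o, eqs k i ε c x z o = 0) → aeval c R = 0 := by
  classical
  let B := MvPolynomial (Vr m d h) ℤ
  let cB : Idx m d → B := fun q => X (.inl q)
  let xB : Fin h → Fin (m + 1) → B := fun a j => X (.inr (.inl (a, j)))
  let zB : B := X (.inr (.inr ()))
  let I : Ideal B := Ideal.span (Set.range (eqs k i ε cB xB zB))
  have hR : ∃ R : MvPolynomial (Idx m d) ℤ, R ≠ 0 ∧ aeval cB R ∈ I := by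
    by_contra hcon
    obtain ⟨A, hA, hA0, φ, hφ, hind⟩ := exists_field I cB fun R hR hRI => hcon ⟨R, hR, hRI⟩
    have heq : ∀ o, eqs k i ε (fun q => φ (cB q)) (fun a j => φ (xB a j)) (φ zB) o = 0 := by
      intro o
      rw [← map_eqs]
      exact hφ _ (Ideal.subset_span ⟨o, rfl⟩)
    have hk : ∀ a, φ (xB a (k a)) = 1 := fun a => sub_eq_zero.1 (heq (.inl (.inl a)))
    have hfix : ∀ a j, tf (fun q => φ (cB q)) (fun j => φ (xB a j)) j =
        tf (fun q => φ (cB q)) (fun j => φ (xB a j)) (k a) * φ (xB a j) := fun a j =>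
      sub_eq_zero.1 (heq (.inl (.inr (a, j))))
    have hdet := heq (.inr true)
    have hz : φ zB * (∏ a, ∏ b, if a = b then 1 else
        (φ (xB b (i a b)) - φ (xB a (i a b)) * φ (xB b (k a)))) = 1 :=
      sub_eq_zero.1 (heq (.inr false))
    have hne : ∀ a b, a ≠ b → φ (xB b (i a b)) - φ (xB a (i a b)) * φ (xB b (k a)) ≠ 0 := by
      intro a b hab h0
      have h1 : (∏ a, ∏ b, if a = b then 1 else
          (φ (xB b (i a b)) - φ (xB a (i a b)) * φ (xB b (k a)))) = 0 := by
        refine Finset.prod_eq_zero (Finset.mem_univ a) (Finset.prod_eq_zero (Finset.mem_univ b) ?_)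
        rw [if_neg hab]
        exact h0
      rw [h1, mul_zero] at hz
      exact zero_ne_one hz
    exact config_false hh hind (x := fun a j => φ (xB a j)) hk hne hfix hε hinj hdet
  obtain ⟨R, hR0, hRI⟩ := hR
  refine ⟨R, hR0, fun K _ c x z heq => ?_⟩
  let φ : B →+* K := eval₂Hom (Int.castRingHom K)
    (Sum.elim c (Sum.elim (fun p => x p.1 p.2) (fun _ => z)))
  have hc : ∀ q, φ (cB q) = c q := fun q => eval₂Hom_X' (Int.castRingHom K) _ (Sum.inl q)
  have hx : ∀ a j, φ (xB a j) = x a j := fun a j =>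
    eval₂Hom_X' (Int.castRingHom K) _ (Sum.inr (Sum.inl (a, j)))
  have hz : φ zB = z := eval₂Hom_X' (Int.castRingHom K) _ (Sum.inr (Sum.inr ()))
  have hI : I ≤ RingHom.ker φ := by
    refine Ideal.span_le.2 ?_
    rintro _ ⟨o, rfl⟩
    rw [SetLike.mem_coe, RingHom.mem_ker, map_eqs]
    simp only [hc, hx, hz]
    exact heq o
  have h1 : φ (aeval cB R) = 0 := hI hRI
  rw [← h1, MvPolynomial.aeval_def, MvPolynomial.aeval_def, MvPolynomial.eval₂_comp_left]
  congr 1
  · exact RingHom.ext_int _ _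
  · funext q
    exact (hc q).symm

end ring

section scale

variable {A : Type*} [Field A] {m d : ℕ}

theorem mo_smul (e : Fin (m + 1) →₀ ℕ) (μ : A) (y : Fin (m + 1) → A) :
    mo e (fun j => μ * y j) = μ ^ e.degree * mo e y := by
  unfold mo
  simp only [mul_pow]
  rw [Finset.prod_mul_distrib, Finset.prod_pow_eq_pow_sum, Finsupp.degree_eq_sum]

theorem tf_smul52 (c : Idx m d → A) (μ : A) (y : Fin (m + 1) → A) (i : Fin (m + 1)) :
    tf c (fun j => μ * y j) i = μ ^ d * tf c y i := by
  rw [← tg_eq, ← tg_eq]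
  unfold tg
  rw [Finset.mul_sum]
  refine Finset.sum_congr rfl fun e _ => ?_
  split_ifs with h
  · rw [mo_smul, h]
    ring
  · rw [mul_zero]

theorem degree_of_mem {D : ℕ} {W : MvPolynomial (Fin (m + 1)) A} (hW : W.IsHomogeneous D)
    {e : Fin (m + 1) →₀ ℕ} (he : e ∈ W.support) : e.degree = D := by
  have h2 := hW (mem_support_iff.1 he)
  rw [Finsupp.weight_apply, Finsupp.sum_fintype _ _ (by simp)] at h2
  rw [Finsupp.degree_eq_sum]
  simpa using h2

theorem eval_smul52 {D : ℕ} {W : MvPolynomial (Fin (m + 1)) A} (hW : W.IsHomogeneous D) (μ : A)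
    (y : Fin (m + 1) → A) : eval (fun j => μ * y j) W = μ ^ D * eval y W := by
  rw [MvPolynomial.eval_eq', MvPolynomial.eval_eq', Finset.mul_sum]
  refine Finset.sum_congr rfl fun e he => ?_
  have h1 := mo_smul e μ y
  rw [degree_of_mem hW he] at h1
  unfold mo at h1
  rw [h1]
  ring

theorem exists_eps (m D : ℕ) : ∃ ε : Fin ((m + D).choose D) → (Fin (m + 1) →₀ ℕ),
    (∀ b, (ε b).degree = D) ∧ Function.Injective ε ∧ ∀ e : Fin (m + 1) →₀ ℕ, e.degree = D →
      ∃ b, ε b = e := by
  classical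
  have e1 : Sym (Fin (m + 1)) D ≃ {P : Fin (m + 1) →₀ ℕ // P.degree = D} :=
    (Sym.equivNatSum (Fin (m + 1)) D).trans (Equiv.subtypeEquivRight fun P => by
      rw [Finsupp.sum_fintype _ _ (by simp), Finsupp.degree_eq_sum]
      rfl)
  have hcard : Fintype.card (Sym (Fin (m + 1)) D) = (m + D).choose D := by
    rw [Sym.card_sym_eq_choose, Fintype.card_fin]
    congr 1
    omega
  have e2 : Fin ((m + D).choose D) ≃ Sym (Fin (m + 1)) D :=
    (Fin.castOrderIso hcard.symm).toEquiv.trans (Fintype.equivFin _).symm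
  refine ⟨fun b => (e1 (e2 b)).1, fun b => (e1 (e2 b)).2, fun a b hab => ?_, fun e he => ?_⟩
  · exact e2.injective (e1.injective (Subtype.ext hab))
  · refine ⟨e2.symm (e1.symm ⟨e, he⟩), ?_⟩
    change (e1 (e2 (e2.symm (e1.symm ⟨e, he⟩)))).1 = e
    rw [Equiv.apply_symm_apply, Equiv.apply_symm_apply]

end scale

/-- (D): generic position of the fixed points. -/
theorem exists_genPos (m d D : ℕ) (hD : (m + D).choose D ≤ d) :
    ∃ R : MvPolynomial (Idx m d) ℤ, R ≠ 0 ∧ ∀ (K : Type) [Field K] [CharZero K] (c : Idx m d → K),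
      aeval c R ≠ 0 → GenPos D c := by
  classical
  obtain ⟨ε, hε, hinj, hsurj⟩ := exists_eps m D
  choose R hR0 hR using fun ω : (Fin ((m + D).choose D) → Fin (m + 1)) ×
    (Fin ((m + D).choose D) → Fin ((m + D).choose D) → Fin (m + 1)) =>
    exists_R (m := m) hD ω.1 ω.2 ε hε hinj
  refine ⟨∏ ω, R ω, Finset.prod_ne_zero_iff.2 fun ω _ => hR0 ω, ?_⟩
  intro K _ _ c hc x hfix hdist W hW hWx
  by_contra hW0
  -- normalisation
  have hex : ∀ a, ∃ j, x a j ≠ 0 := by
    intro a
    by_contra hcon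
    push Not at hcon
    exact (hfix a).1 (funext hcon)
  choose k hk using hex
  let y : Fin ((m + D).choose D) → Fin (m + 1) → K := fun a j => (x a (k a))⁻¹ * x a j
  have hyk : ∀ a, y a (k a) = 1 := fun a => inv_mul_cancel₀ (hk a)
  have hyfix : ∀ a j, tf c (y a) j = tf c (y a) (k a) * y a j := by
    intro a j
    obtain ⟨μ, hμ⟩ := (hfix a).2
    simp only [y]
    rw [tf_smul52, tf_smul52, hμ, hμ]
    have := hk a
    field_simp
  have hidx : ∀ a b, ∃ i, a ≠ b → y b i - y a i * y b (k a) ≠ 0 := by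
    intro a b
    by_cases hab : a = b
    · exact ⟨0, fun h => absurd hab h⟩
    · by_contra hcon
      push Not at hcon
      have h1 : ∀ i, y b i = y a i * y b (k a) := fun i => sub_eq_zero.1 (hcon i).2
      refine hdist b a (Ne.symm hab) ⟨x b (k b) * (y b (k a) * (x a (k a))⁻¹), ?_⟩
      funext j
      have h2 := h1 j
      simp only [Pi.smul_apply, smul_eq_mul]
      have h3 : x b j = x b (k b) * y b j := by
        simp only [y]
        rw [← mul_assoc, mul_inv_cancel₀ (hk b), one_mul]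
      rw [h3, h2]
      simp only [y]
      ring
  choose i hi using hidx
  have hdet : (Matrix.of fun a b => mo (ε b) (y a)).det = 0 := by
    rw [← Matrix.exists_mulVec_eq_zero_iff]
    refine ⟨fun b => coeff (ε b) W, ?_, ?_⟩
    · intro h0
      obtain ⟨e, he⟩ := MvPolynomial.support_nonempty.2 hW0
      obtain ⟨b, hb⟩ := hsurj e (degree_of_mem hW he)
      refine (mem_support_iff.1 he) ?_
      rw [← hb]
      exact congrFun h0 b
    · funext a
      have h1 : eval (y a) W = 0 := by
        have h2 := eval_smul52 hW (x a (k a))⁻¹ (x a)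
        rw [hWx, mul_zero] at h2
        exact h2
      rw [MvPolynomial.eval_eq'] at h1
      change ∑ b, mo (ε b) (y a) * coeff (ε b) W = 0
      rw [← h1]
      have h3 : W.support ⊆ Finset.univ.image ε := by
        intro e he
        obtain ⟨b, hb⟩ := hsurj e (degree_of_mem hW he)
        exact Finset.mem_image.2 ⟨b, Finset.mem_univ b, hb⟩
      rw [Finset.sum_subset h3 (fun e _ he => by
        rw [MvPolynomial.notMem_support_iff.1 he, zero_mul]),
        Finset.sum_image fun a _ b _ hab => hinj hab]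
      refine Finset.sum_congr rfl fun b _ => ?_
      rw [mul_comm]
      rfl
  have hzero : aeval c (R (k, i)) = 0 := by
    refine hR (k, i) K c y (∏ a, ∏ b, if a = b then 1 else (y b (i a b) - y a (i a b) * y b (k a)))⁻¹ ?_
    rintro ((a | ⟨a, j⟩) | (_ | _))
    · simp only [eqs]
      rw [hyk, sub_self]
    · simp only [eqs]
      rw [tg_eq, tg_eq, hyfix a j, sub_self]
    · simp only [eqs]
      rw [inv_mul_cancel₀, sub_self]
      refine Finset.prod_ne_zero_iff.2 fun a _ => Finset.prod_ne_zero_iff.2 fun b _ => ?_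
      split_ifs with hab
      · exact one_ne_zero
      · exact hi a b hab
    · simp only [eqs]
      exact hdet
  refine hc ?_
  rw [map_prod]
  exact Finset.prod_eq_zero (Finset.mem_univ (k, i)) hzero

end Pool.Agent.Helper52.MQ
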