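import Mathlib

/-!
# Generic position: two lemmas on algebraic independence over the integers
-/

set_option autoImplicit false

namespace Pool.Agent.Helper52.MQ

open MvPolynomial

section matroid

variable {A : Type*} [Field A] [CharZero A]

/-- The elements which are algebraic over the ring generated by a set: a subfield. -/
noncomputable def clF (s : Set A) : Subfield A where
  toSubring := (Subalgebra.algebraicClosure (Algebra.adjoin ℤ s) A).toSubring
  inv_mem' := by
    intro x hx
    exact IsAlgebraic.inv hx

omit [CharZero A] in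
theorem mem_clF {s : Set A} {x : A} : x ∈ clF s ↔ IsAlgebraic (Algebra.adjoin ℤ s) x := Iff.rfl

omit [CharZero A] in
theorem subset_clF {s : Set A} {x : A} (hx : x ∈ s) : x ∈ clF s := by
  rw [mem_clF]
  exact isAlgebraic_algebraMap (⟨x, Algebra.subset_adjoin hx⟩ : Algebra.adjoin ℤ s)

instance faith52 : FaithfulSMul ℤ A := by
  rw [faithfulSMul_iff_algebraMap_injective]
  exact (algebraMap ℤ A).injective_int

/-- generators of a field with at least as many algebraically independent elements are
algebraically independent -/
theorem indep_of_card {ι κ : Type*} [Fintype ι] [Fintype κ] {g : ι → A} {c : κ → A}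
    (hc : AlgebraicIndependent ℤ c) (hcard : Fintype.card ι ≤ Fintype.card κ)
    (hcg : ∀ j, c j ∈ clF (Set.range g)) : AlgebraicIndependent ℤ g := by
  classical
  let M := AlgebraicIndependent.matroid ℤ A
  have hcl : M.closure (Set.range g) = {x | x ∈ clF (Set.range g)} := by
    rw [AlgebraicIndependent.matroid_closure_eq]
    rfl
  have hci : M.Indep (Set.range c) := by
    rw [AlgebraicIndependent.matroid_indep_iff]
    exact (algebraicIndependent_subtype_range hc.injective).2 hc
  have h1 : Set.range c ⊆ M.closure (Set.range g) := by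
    rw [hcl]
    rintro _ ⟨j, rfl⟩
    exact hcg j
  have h2 : (Set.range c).encard = Fintype.card κ := by
    rw [← Set.image_univ, hc.injective.encard_image, Set.encard_univ, ENat.card_eq_coe_fintype_card]
  have h3 : (Fintype.card κ : ℕ∞) ≤ M.eRk (Set.range g) := by
    rw [← h2, ← hci.eRk_eq_encard, ← M.eRk_closure_eq (Set.range g)]
    exact M.eRk_mono h1
  have h4 : (Set.range g).encard ≤ Fintype.card ι := by
    rw [← Set.image_univ]
    refine (Set.encard_image_le _ _).trans ?_
    rw [Set.encard_univ, ENat.card_eq_coe_fintype_card]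
  have h5 : (Fintype.card ι : ℕ∞) ≤ Fintype.card κ := by exact_mod_cast hcard
  have h6 : (Set.range g).encard = Fintype.card ι :=
    le_antisymm h4 (h5.trans (h3.trans (M.eRk_le_encard _)))
  have h7 : M.eRk (Set.range g) = (Set.range g).encard :=
    le_antisymm (M.eRk_le_encard _) (h6.le.trans (h5.trans h3))
  have hfin : (Set.range g).Finite := Set.finite_range g
  have hgi : M.Indep (Set.range g) := by
    rw [Matroid.indep_iff_eRk_eq_encard_of_finite hfin]
    exact h7
  have hinj : Function.Injective g := by
    have h8 : (g '' Set.univ).encard = (Set.univ : Set ι).encard := by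
      rw [Set.image_univ, h6, Set.encard_univ, ENat.card_eq_coe_fintype_card]
    have h9 := (Set.toFinite (Set.univ : Set ι)).injOn_of_encard_image_eq h8
    exact Set.injOn_univ.1 h9
  rw [AlgebraicIndependent.matroid_indep_iff] at hgi
  exact (algebraicIndependent_subtype_range hinj).1 hgi

end matroid

section prime

theorem indep_of_ne {A : Type*} [Field A] {κ B : Type*} [CommRing B] (φ : B →+* A) (c : κ → B)
    (hS : ∀ R : MvPolynomial κ ℤ, R ≠ 0 → φ (aeval c R) ≠ 0) :
    AlgebraicIndependent ℤ (fun k => φ (c k)) := by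
  rw [algebraicIndependent_iff]
  intro R hR
  by_contra hne
  refine hS R hne ?_
  rw [← hR, MvPolynomial.aeval_def, MvPolynomial.aeval_def, MvPolynomial.eval₂_comp_left]
  congr 1
  exact RingHom.ext_int _ _

/-- A prime ideal disjoint from a ring of polynomials: if no nonzero polynomial in `c` is in the
ideal `I`, there is a field in which `I` vanishes and `c` is algebraically independent. -/
theorem exists_field {κ : Type} {B : Type} [CommRing B] (I : Ideal B) (c : κ → B)
    (hI : ∀ R : MvPolynomial κ ℤ, R ≠ 0 → aeval c R ∉ I) :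
    ∃ (A : Type) (_ : Field A) (_ : CharZero A) (φ : B →+* A), (∀ b ∈ I, φ b = 0) ∧
      AlgebraicIndependent ℤ (fun k => φ (c k)) := by
  classical
  let S : Submonoid B :=
    { carrier := {b | ∃ R : MvPolynomial κ ℤ, R ≠ 0 ∧ aeval c R = b}
      one_mem' := ⟨1, one_ne_zero, map_one _⟩
      mul_mem' := by
        rintro _ _ ⟨R, hR, rfl⟩ ⟨R', hR', rfl⟩
        exact ⟨R * R', mul_ne_zero hR hR', map_mul _ _ _⟩ }
  have hdis : Disjoint (I : Set B) S := by
    rw [Set.disjoint_left]
    rintro b hb ⟨R, hR, rfl⟩
    exact hI R hR hb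
  obtain ⟨p, hp, hIp, hpS⟩ := Ideal.exists_le_prime_disjoint I S hdis
  let A := FractionRing (B ⧸ p)
  let φ : B →+* A := (algebraMap (B ⧸ p) A).comp (Ideal.Quotient.mk p)
  have hker : ∀ b, φ b = 0 ↔ b ∈ p := by
    intro b
    constructor
    · intro h
      have h1 : Ideal.Quotient.mk p b = 0 :=
        (IsFractionRing.injective (B ⧸ p) A) (h.trans (map_zero _).symm)
      exact Ideal.Quotient.eq_zero_iff_mem.1 h1
    · intro h
      change algebraMap (B ⧸ p) A (Ideal.Quotient.mk p b) = 0
      rw [Ideal.Quotient.eq_zero_iff_mem.2 h, map_zero]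
  have hS : ∀ R : MvPolynomial κ ℤ, R ≠ 0 → φ (aeval c R) ≠ 0 := by
    intro R hR h
    rw [hker] at h
    exact Set.disjoint_left.1 hpS h ⟨R, hR, rfl⟩
  have hchar : CharZero A := by
    refine charZero_of_inj_zero fun n hn => ?_
    by_contra hne
    have h1 := hS (MvPolynomial.C (n : ℤ)) (by
      rw [Ne, MvPolynomial.C_eq_zero]
      exact_mod_cast hne)
    refine h1 ?_
    rw [aeval_C]
    simpa using hn
  exact ⟨A, inferInstance, hchar, φ, fun b hb => (hker b).2 (hIp hb), indep_of_ne φ c hS⟩

end prime

end Pool.Agent.Helper52.MQ
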