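import Pool.Agent.Helper52.MQ.Alg
import Pool.Agent.Helper86.MQ.FourDefs

/-!
# Generic position: fixed points on a hypersurface of small degree give an algebraic relation
-/

set_option autoImplicit false

namespace Pool.Agent.Helper52.MQ

open MvPolynomial
open Pool.Agent.Helper86.MQ (Idx tf)

/-- the value of a monomial -/
noncomputable def mo {A : Type*} [CommRing A] {m : ℕ} (e : Fin (m + 1) →₀ ℕ) (y : Fin (m + 1) → A) : A :=
  ∏ j, y j ^ (e j)

section lin

variable {A : Type*} [Field A] {m d h : ℕ}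

theorem rows_indep (hh : h ≤ d) {x : Fin h → Fin (m + 1) → A} {k : Fin h → Fin (m + 1)}
    (hk : ∀ a, x a (k a) = 1) {i : Fin h → Fin h → Fin (m + 1)}
    (hne : ∀ a b, a ≠ b → x b (i a b) - x a (i a b) * x b (k a) ≠ 0) {lam : Fin h → A}
    (hl : ∀ e : Fin (m + 1) →₀ ℕ, e.degree = d → ∑ a, lam a * mo e (x a) = 0) (b : Fin h) :
    lam b = 0 := by
  classical
  let g : MvPolynomial (Fin (m + 1)) A :=
    (∏ a ∈ Finset.univ.erase b, (X (i a b) - C (x a (i a b)) * X (k a))) * X (k b) ^ (d - (h - 1))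
  have hlin : ∀ a, (X (i a b) - C (x a (i a b)) * X (k a) :
      MvPolynomial (Fin (m + 1)) A).IsHomogeneous 1 := by
    intro a
    refine (isHomogeneous_X A _).sub ?_
    have := (isHomogeneous_C (Fin (m + 1)) (x a (i a b))).mul (isHomogeneous_X A (k a))
    rwa [zero_add] at this
  have hh1 : 1 ≤ h := by
    have := b.2
    omega
  have hg : g.IsHomogeneous d := by
    have h1 := IsHomogeneous.prod (Finset.univ.erase b)
      (fun a => (X (i a b) - C (x a (i a b)) * X (k a) : MvPolynomial (Fin (m + 1)) A))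
      (fun _ => 1) (fun a _ => hlin a)
    have h2 := h1.mul ((isHomogeneous_X A (k b)).pow (d - (h - 1)))
    have h3 : (∑ _a ∈ Finset.univ.erase b, 1) + 1 * (d - (h - 1)) = d := by
      rw [Finset.sum_const, Finset.card_erase_of_mem (Finset.mem_univ b), Finset.card_univ,
        Fintype.card_fin, smul_eq_mul]
      omega
    rw [h3] at h2
    exact h2
  have hev : ∀ a, a ≠ b → eval (x a) g = 0 := by
    intro a hab
    change eval (x a) (_ * _) = 0
    rw [map_mul, map_prod, Finset.prod_eq_zero (Finset.mem_erase.2 ⟨hab, Finset.mem_univ a⟩), zero_mul]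
    rw [map_sub, map_mul, eval_X, eval_C, eval_X, hk, mul_one, sub_self]
  have hevb : eval (x b) g ≠ 0 := by
    change eval (x b) (_ * _) ≠ 0
    rw [map_mul, map_prod, map_pow, eval_X, hk, one_pow, mul_one, Finset.prod_ne_zero_iff]
    intro a ha
    rw [map_sub, map_mul, eval_X, eval_C, eval_X]
    exact hne a b (Finset.mem_erase.1 ha).1
  have hsum : ∑ a, lam a * eval (x a) g = 0 := by
    have h1 : ∀ a, lam a * eval (x a) g = ∑ e ∈ g.support, coeff e g * (lam a * mo e (x a)) := by
      intro a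
      rw [MvPolynomial.eval_eq', Finset.mul_sum]
      refine Finset.sum_congr rfl fun e _ => ?_
      unfold mo
      ring
    rw [Finset.sum_congr rfl fun a _ => h1 a, Finset.sum_comm]
    refine Finset.sum_eq_zero fun e he => ?_
    rw [← Finset.mul_sum, hl e, mul_zero]
    have h2 := hg (mem_support_iff.1 he)
    rw [Finsupp.weight_apply, Finsupp.sum_fintype _ _ (by simp)] at h2
    rw [Finsupp.degree_eq_sum]
    simpa using h2
  rw [Finset.sum_eq_single b (fun a _ hab => by rw [hev a hab, mul_zero])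
    (fun h => absurd (Finset.mem_univ b) h)] at hsum
  exact (mul_eq_zero.1 hsum).resolve_right hevb

theorem exists_minor (hh : h ≤ d) {x : Fin h → Fin (m + 1) → A} {k : Fin h → Fin (m + 1)}
    (hk : ∀ a, x a (k a) = 1) {i : Fin h → Fin h → Fin (m + 1)}
    (hne : ∀ a b, a ≠ b → x b (i a b) - x a (i a b) * x b (k a) ≠ 0) :
    ∃ t : Fin h → (Fin (m + 1) →₀ ℕ), (∀ b, (t b).degree = d) ∧ Function.Injective t ∧
      (Matrix.of fun a b => mo (t b) (x a)).det ≠ 0 := by
  classical
  let s : Set (Fin h → A) := {v | ∃ e : Fin (m + 1) →₀ ℕ, e.degree = d ∧ v = fun a => mo e (x a)}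
  have hspan : Submodule.span A s = ⊤ := by
    by_contra hcon
    obtain ⟨f, hf0, hf⟩ := Submodule.exists_le_ker_of_lt_top _ (lt_top_iff_ne_top.2 hcon)
    refine hf0 (LinearMap.ext fun v => ?_)
    have hlam : ∀ b, (f fun j => if b = j then 1 else 0) = 0 := by
      intro b
      refine rows_indep hh hk hne (lam := fun b => f fun j => if b = j then 1 else 0) ?_ b
      intro e he
      have h1 : f (fun a => mo e (x a)) = 0 := hf (Submodule.subset_span ⟨e, he, rfl⟩)
      rw [LinearMap.pi_apply_eq_sum_univ] at h1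
      refine Eq.trans (Finset.sum_congr rfl fun a _ => ?_) h1
      rw [smul_eq_mul, mul_comm]
    rw [LinearMap.pi_apply_eq_sum_univ, LinearMap.zero_apply]
    refine Finset.sum_eq_zero fun b _ => ?_
    rw [hlam, smul_zero]
  obtain ⟨f, hfs, -, hfi⟩ := Submodule.exists_fun_fin_finrank_span_eq A s
  have hr : Module.finrank A (Submodule.span A s) = h := by
    rw [hspan, finrank_top, Module.finrank_fintype_fun_eq_card, Fintype.card_fin]
  have hf' : ∃ f : Fin h → (Fin h → A), (∀ b, f b ∈ s) ∧ LinearIndependent A f :=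
    ⟨fun b => f (Fin.cast hr.symm b), fun b => hfs _, hfi.comp _ (Fin.cast_injective hr.symm)⟩
  obtain ⟨f, hfs, hfi⟩ := hf'
  choose t ht hft using hfs
  refine ⟨t, ht, fun b b' hbb => hfi.injective ?_, ?_⟩
  · rw [hft, hft, hbb]
  · have h1 : IsUnit (Matrix.of fun a b => mo (t b) (x a)) := by
      rw [← Matrix.linearIndependent_cols_iff_isUnit]
      have h2 : (Matrix.of fun a b => mo (t b) (x a)).col = f := by
        funext b
        rw [hft]
        rfl
      rw [h2]
      exact hfi
    rw [Matrix.isUnit_iff_isUnit_det] at h1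
    exact h1.ne_zero

theorem det_mem {F : Subfield A} {M : Matrix (Fin h) (Fin h) A} (hM : ∀ a b, M a b ∈ F) :
    M.det ∈ F := by
  rw [Matrix.det_apply]
  refine sum_mem fun σ _ => ?_
  rw [Units.smul_def]
  exact zsmul_mem (prod_mem fun a _ => hM _ _) _

theorem solve_mem {F : Subfield A} {M : Matrix (Fin h) (Fin h) A} (hM : ∀ a b, M a b ∈ F)
    (hdet : M.det ≠ 0) {v : Fin h → A} (hv : ∀ a, M.mulVec v a ∈ F) (b : Fin h) : v b ∈ F := by
  classical
  have h1 : M⁻¹.mulVec (M.mulVec v) = v := by
    rw [Matrix.mulVec_mulVec, Matrix.nonsing_inv_mul _ (isUnit_iff_ne_zero.2 hdet),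
      Matrix.one_mulVec]
  rw [← congrFun h1 b]
  change ∑ a, M⁻¹ b a * M.mulVec v a ∈ F
  refine sum_mem fun a _ => mul_mem ?_ (hv a)
  rw [Matrix.inv_def, Matrix.smul_apply, smul_eq_mul, Ring.inverse_eq_inv', Matrix.adjugate_apply]
  refine mul_mem (inv_mem (det_mem hM)) (det_mem fun a' b' => ?_)
  rw [Matrix.updateRow_apply]
  split_ifs
  · rw [Pi.single_apply]
    split_ifs
    · exact one_mem F
    · exact zero_mem F
  · exact hM _ _

end lin

section rel

variable {m D h : ℕ}

/-- the generic determinant in the affine coordinates is not zero -/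
theorem gen_det (k : Fin h → Fin (m + 1)) (ε : Fin h → (Fin (m + 1) →₀ ℕ))
    (hε : ∀ b, (ε b).degree = D) (hinj : Function.Injective ε) :
    (Matrix.of fun a b => (monomial (Finsupp.equivFunOnFinite.symm
      fun p : {p : Fin h × Fin (m + 1) // p.2 ≠ k p.1} => if p.1.1 = a then ε b p.1.2 else 0) 1 :
        MvPolynomial {p : Fin h × Fin (m + 1) // p.2 ≠ k p.1} ℤ)).det ≠ 0 := by
  classical
  let E : Equiv.Perm (Fin h) → ({p : Fin h × Fin (m + 1) // p.2 ≠ k p.1} →₀ ℕ) := fun σ =>
    Finsupp.equivFunOnFinite.symm fun p => ε (σ.symm p.1.1) p.1.2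
  have hprod : ∀ σ : Equiv.Perm (Fin h), (∏ b, (Matrix.of fun a b => (monomial
      (Finsupp.equivFunOnFinite.symm
      fun p : {p : Fin h × Fin (m + 1) // p.2 ≠ k p.1} => if p.1.1 = a then ε b p.1.2 else 0) 1 :
        MvPolynomial {p : Fin h × Fin (m + 1) // p.2 ≠ k p.1} ℤ)) (σ b) b) = monomial (E σ) 1 := by
    intro σ
    simp only [Matrix.of_apply]
    rw [← monomial_sum_one]
    refine congrArg (fun e => monomial e (1 : ℤ)) ?_
    ext p
    rw [Finsupp.finsetSum_apply]
    simp only [Finsupp.equivFunOnFinite_symm_apply_apply, E]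
    rw [Finset.sum_eq_single (σ.symm p.1.1)]
    · simp
    · intro b _ hb
      rw [if_neg]
      intro h1
      apply hb
      rw [h1, Equiv.symm_apply_apply]
    · intro h1
      exact absurd (Finset.mem_univ _) h1
  have hE : ∀ σ, E σ = E 1 → σ = 1 := by
    intro σ hσ
    have h1 : ∀ a, σ.symm a = a := by
      intro a
      refine hinj (Finsupp.ext fun j => ?_)
      have h2 : ∀ j, j ≠ k a → ε (σ.symm a) j = ε a j := by
        intro j hj
        have h3 := DFunLike.congr_fun hσ ⟨(a, j), hj⟩
        exact h3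
      by_cases hj : j = k a
      · subst hj
        have h4 := (hε (σ.symm a)).trans (hε a).symm
        rw [Finsupp.degree_eq_sum, Finsupp.degree_eq_sum,
          ← Finset.add_sum_erase _ _ (Finset.mem_univ (k a)),
          ← Finset.add_sum_erase _ _ (Finset.mem_univ (k a)),
          Finset.sum_congr rfl fun j hj => h2 j (Finset.mem_erase.1 hj).1] at h4
        exact Nat.add_right_cancel h4
      · exact h2 j hj
    ext a
    have h2 := congrArg σ (h1 a)
    rw [Equiv.apply_symm_apply] at h2
    rw [← h2]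
    rfl
  intro h0
  have h1 := congrArg (coeff (E 1)) h0
  rw [Matrix.det_apply, coeff_zero] at h1
  have h2 : coeff (E 1) (∑ σ : Equiv.Perm (Fin h), Equiv.Perm.sign σ • ∏ b, (Matrix.of fun a b =>
      (monomial (Finsupp.equivFunOnFinite.symm
      fun p : {p : Fin h × Fin (m + 1) // p.2 ≠ k p.1} => if p.1.1 = a then ε b p.1.2 else 0) 1 :
        MvPolynomial {p : Fin h × Fin (m + 1) // p.2 ≠ k p.1} ℤ)) (σ b) b) = 1 := by
    rw [coeff_sum, Finset.sum_eq_single (1 : Equiv.Perm (Fin h))]
    · rw [hprod]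
      simp
    · intro σ _ hσ
      rw [hprod, Units.smul_def, coeff_smul, coeff_monomial, if_neg (fun h => hσ (hE σ h)), smul_zero]
    · intro h1
      exact absurd (Finset.mem_univ _) h1
  rw [h2] at h1
  exact one_ne_zero h1

end rel

end Pool.Agent.Helper52.MQ
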