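import Pool.Agent.Helper52.MQ.Config

/-!
# Generic position: the contradiction for algebraically independent coefficients
-/

set_option autoImplicit false

namespace Pool.Agent.Helper52.MQ

open MvPolynomial
open Pool.Agent.Helper86.MQ (Idx tf)

variable {A : Type*} [Field A] [CharZero A] {m d h : ℕ}

theorem card_fst (k : Fin h → Fin (m + 1)) :
    Fintype.card {p : Fin h × Fin (m + 1) // p.2 ≠ k p.1} + h = h * (m + 1) := by
  classical
  have h1 := Fintype.card_subtype_compl (fun p : Fin h × Fin (m + 1) => p.2 = k p.1)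
  have h2 : Fintype.card {p : Fin h × Fin (m + 1) // p.2 = k p.1} = h := by
    have e : {p : Fin h × Fin (m + 1) // p.2 = k p.1} ≃ Fin h :=
      { toFun := fun p => p.1.1
        invFun := fun a => ⟨(a, k a), rfl⟩
        left_inv := by
          rintro ⟨⟨a, j⟩, hj⟩
          simp only at hj
          subst hj
          rfl
        right_inv := fun a => rfl }
    rw [Fintype.card_congr e, Fintype.card_fin]
  have h3 : Fintype.card {p : Fin h × Fin (m + 1) // p.2 ≠ k p.1} =
      Fintype.card {p : Fin h × Fin (m + 1) // ¬ p.2 = k p.1} := rfl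
  have h4 := Fintype.card_subtype_le (fun p : Fin h × Fin (m + 1) => p.2 = k p.1)
  rw [h2, Fintype.card_prod, Fintype.card_fin, Fintype.card_fin] at h4
  rw [h3, h1, h2, Fintype.card_prod, Fintype.card_fin, Fintype.card_fin]
  omega

theorem card_snd {t : Fin h → {s : Fin (m + 1) →₀ ℕ // s.degree ≤ d}} (ht : Function.Injective t) :
    Fintype.card {q : Idx m d // ∀ b, q.2 ≠ t b} + (m + 1) * h = Fintype.card (Idx m d) := by
  classical
  have h1 := Fintype.card_subtype_compl (fun q : Idx m d => ∃ b, q.2 = t b)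
  have h2 : Fintype.card {q : Idx m d // ∃ b, q.2 = t b} = (m + 1) * h := by
    have e : Fin (m + 1) × Fin h ≃ {q : Idx m d // ∃ b, q.2 = t b} :=
      Equiv.ofBijective (fun z => ⟨(z.1, t z.2), z.2, rfl⟩) (by
        constructor
        · rintro ⟨i, b⟩ ⟨i', b'⟩ hz
          have h3 := congrArg Subtype.val hz
          simp only [Prod.mk.injEq] at h3
          rw [h3.1, ht h3.2]
        · rintro ⟨⟨i, e⟩, b, hb⟩
          simp only at hb
          subst hb
          exact ⟨(i, b), rfl⟩)
    rw [← Fintype.card_congr e, Fintype.card_prod, Fintype.card_fin, Fintype.card_fin]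
  have h3 : Fintype.card {q : Idx m d // ∀ b, q.2 ≠ t b} =
      Fintype.card {q : Idx m d // ¬ ∃ b, q.2 = t b} := by
    refine Fintype.card_congr (Equiv.subtypeEquivRight fun q => ?_)
    rw [not_exists]
  have h4 := Fintype.card_subtype_le (fun q : Idx m d => ∃ b, q.2 = t b)
  rw [h2] at h4
  rw [h3, h1, h2]
  omega

theorem config_false (hh : h ≤ d) {c : Idx m d → A} (hc : AlgebraicIndependent ℤ c)
    {x : Fin h → Fin (m + 1) → A} {k : Fin h → Fin (m + 1)} (hk : ∀ a, x a (k a) = 1)
    {i : Fin h → Fin h → Fin (m + 1)}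
    (hne : ∀ a b, a ≠ b → x b (i a b) - x a (i a b) * x b (k a) ≠ 0)
    (hfix : ∀ a j, tf c (x a) j = tf c (x a) (k a) * x a j) {D : ℕ}
    {ε : Fin h → (Fin (m + 1) →₀ ℕ)} (hε : ∀ b, (ε b).degree = D) (hinj : Function.Injective ε)
    (hdet : (Matrix.of fun a b => mo (ε b) (x a)).det = 0) : False := by
  classical
  obtain ⟨t, ht, htinj, htdet⟩ := exists_minor hh hk hne
  let t' : Fin h → {s : Fin (m + 1) →₀ ℕ // s.degree ≤ d} := fun b => ⟨t b, (ht b).le⟩
  have ht'inj : Function.Injective t' := fun a b hab => htinj (congrArg Subtype.val hab)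
  let g : {p : Fin h × Fin (m + 1) // p.2 ≠ k p.1} ⊕ (Fin h ⊕ {q : Idx m d // ∀ b, q.2 ≠ t' b}) → A :=
    Sum.elim (fun p => x p.1.1 p.1.2) (Sum.elim (fun a => tf c (x a) (k a)) (fun q => c q.1))
  set F := clF (Set.range g) with hF
  have hx : ∀ a j, x a j ∈ F := by
    intro a j
    by_cases hj : j = k a
    · rw [hj, hk]
      exact one_mem F
    · exact subset_clF ⟨Sum.inl ⟨(a, j), hj⟩, rfl⟩
  have hμ : ∀ a, tf c (x a) (k a) ∈ F := fun a => subset_clF ⟨Sum.inr (Sum.inl a), rfl⟩
  have hcq : ∀ q : Idx m d, (∀ b, q.2 ≠ t' b) → c q ∈ F := fun q hq =>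
    subset_clF ⟨Sum.inr (Sum.inr ⟨q, hq⟩), rfl⟩
  have hmo : ∀ (e : Fin (m + 1) →₀ ℕ) a, mo e (x a) ∈ F := fun e a =>
    prod_mem fun j _ => pow_mem (hx a j) _
  have hall : ∀ q, c q ∈ F := by
    rintro ⟨j, e⟩
    by_cases hq : ∀ b, e ≠ t' b
    · exact hcq _ hq
    · push Not at hq
      obtain ⟨b, hb⟩ := hq
      have hsolve : ∀ b, c (j, t' b) ∈ F := by
        refine solve_mem (M := Matrix.of fun a b => mo (t b) (x a)) (fun a b => hmo _ _) htdet
          (v := fun b => c (j, t' b)) fun a => ?_
        have h1 : tf c (x a) j = (∑ b, mo (t b) (x a) * c (j, t' b)) +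
            ∑ e ∈ Finset.univ.filter (fun e => ¬ ∃ b, t' b = e),
              if e.1.degree = d then c (j, e) * ∏ l, x a l ^ (e.1 l) else 0 := by
          unfold tf
          rw [← Finset.sum_filter_add_sum_filter_not Finset.univ (fun e => ∃ b, t' b = e)]
          congr 1
          have h2 : Finset.univ.filter (fun e => ∃ b, t' b = e) = Finset.univ.image t' := by
            ext e
            simp
          rw [h2, Finset.sum_image fun a _ b _ hab => ht'inj hab]
          refine Finset.sum_congr rfl fun b _ => ?_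
          rw [if_pos (ht b), mul_comm]
          rfl
        have h3 : (Matrix.of fun a b => mo (t b) (x a)).mulVec (fun b => c (j, t' b)) a =
            tf c (x a) j - ∑ e ∈ Finset.univ.filter (fun e => ¬ ∃ b, t' b = e),
              if e.1.degree = d then c (j, e) * ∏ l, x a l ^ (e.1 l) else 0 := by
          rw [h1, add_sub_cancel_right]
          rfl
        rw [h3, hfix]
        refine sub_mem (mul_mem (hμ a) (hx a j)) (sum_mem fun e he => ?_)
        split_ifs
        · refine mul_mem (hcq _ fun b hb => ?_) (hmo _ _)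
          rw [Finset.mem_filter] at he
          exact he.2 ⟨b, hb.symm⟩
        · exact zero_mem F
      rw [hb]
      exact hsolve b
  have hcard : Fintype.card ({p : Fin h × Fin (m + 1) // p.2 ≠ k p.1} ⊕
      (Fin h ⊕ {q : Idx m d // ∀ b, q.2 ≠ t' b})) ≤ Fintype.card (Idx m d) := by
    rw [Fintype.card_sum, Fintype.card_sum, Fintype.card_fin]
    have h1 := card_fst k
    have h2 := card_snd ht'inj
    rw [mul_comm] at h1
    omega
  have hg := indep_of_card hc hcard hall
  have hgx : AlgebraicIndependent ℤ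
      (fun p : {p : Fin h × Fin (m + 1) // p.2 ≠ k p.1} => x p.1.1 p.1.2) :=
    hg.comp Sum.inl Sum.inl_injective
  rw [algebraicIndependent_iff] at hgx
  refine gen_det k ε hε hinj (hgx _ ?_)
  rw [AlgHom.map_det, ← hdet]
  congr 1
  ext a b
  rw [AlgHom.mapMatrix_apply, Matrix.map_apply, Matrix.of_apply, Matrix.of_apply, aeval_monomial,
    Finsupp.prod_fintype _ _ (fun _ => pow_zero _), map_one, one_mul]
  simp only [Finsupp.equivFunOnFinite_symm_apply_apply]
  have h1 : ∏ p : {p : Fin h × Fin (m + 1) // p.2 ≠ k p.1},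
      x p.1.1 p.1.2 ^ (if p.1.1 = a then ε b p.1.2 else 0) =
      ∏ p ∈ Finset.univ.filter (fun p : Fin h × Fin (m + 1) => p.2 ≠ k p.1),
        x p.1 p.2 ^ (if p.1 = a then ε b p.2 else 0) := by
    symm
    refine Finset.prod_subtype (p := fun p : Fin h × Fin (m + 1) => p.2 ≠ k p.1) _ (fun p => ?_)
      (fun p => x p.1 p.2 ^ (if p.1 = a then ε b p.2 else 0))
    simp
  rw [h1, Finset.prod_filter, Fintype.prod_prod_type, Finset.prod_eq_single a]
  · unfold mo
    refine Finset.prod_congr rfl fun j _ => ?_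
    by_cases hj : j = k a
    · simp [hj, hk]
    · simp [hj]
  · intro a' _ ha'
    refine Finset.prod_eq_one fun j _ => ?_
    simp [ha']
  · intro h2
    exact absurd (Finset.mem_univ _) h2

end Pool.Agent.Helper52.MQ
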