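import Pool.Agent.Helper26.MQ.LocalCurve
import Pool.Agent.Helper26.RC.DirX
import Pool.Agent.Helper26.RC.Trd

/-!
# Curves: an orbit in the region `Esc` is in a curve at almost all times or at finitely many times

The distance of a curve to its point at infinity is a power of the size; the orbit has double
exponential growth, and so it cannot stay at the distance `p ^ (-n)` from its limit point.
-/

set_option autoImplicit false

namespace Pool.Agent.Helper52.MQ

open MvPolynomial Filter Topology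
open Pool.Agent.Helper86.MQ
open Pool.Agent.Helper26.MQ (esc_step local_curve)
open Pool.Agent.Helper26.RC (van mem_van notMem_van emb sz Cv Dir one_le_sz dir_exists trdeg_emb)

variable {p : ℕ} [hp : Fact p.Prime] {m d : ℕ}

theorem esc_iter52 (hd : 2 ≤ d) {Φ : Fin (m + 1) → MvPolynomial (Fin (m + 1)) ℚ_[p]}
    (hΦ : Good p m d Φ) {x : Fin (m + 1) → ℚ_[p]} (hx : Esc x) (n : ℕ) :
    Esc ((pm Φ)^[n] x) ∧ (p : ℝ) ^ 2 ^ n ≤ ‖(pm Φ)^[n] x 0‖ := by
  have hp1 : (1 : ℝ) ≤ p := by exact_mod_cast hp.out.one_lt.le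
  induction n with
  | zero =>
    refine ⟨hx, ?_⟩
    rw [pow_zero, pow_one]
    exact hx.1
  | succ n ih =>
    rw [Function.iterate_succ_apply']
    obtain ⟨h1, h2⟩ := esc_step hd hΦ.toPre ih.1
    refine ⟨h1, ?_⟩
    rw [h2]
    have h3 : (1 : ℝ) ≤ ‖(pm Φ)^[n] x 0‖ := hp1.trans ih.1.1
    calc (p : ℝ) ^ 2 ^ (n + 1) = ((p : ℝ) ^ 2 ^ n) ^ 2 := by rw [← pow_mul, pow_succ]
      _ ≤ ‖(pm Φ)^[n] x 0‖ ^ 2 := pow_le_pow_left₀ (by positivity) ih.2 2
      _ ≤ ‖(pm Φ)^[n] x 0‖ ^ d := pow_le_pow_right₀ h3 hd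
      _ ≤ p * ‖(pm Φ)^[n] x 0‖ ^ d := le_mul_of_one_le_left (by positivity) hp1

/-- the absolute value of the algebraic closure -/
noncomputable def mu52 (p : ℕ) [Fact p.Prime] : AbsoluteValue (PadicAlgCl p) ℝ :=
  NormedField.toAbsoluteValue (PadicAlgCl p)

theorem mu52_apply (x : PadicAlgCl p) : mu52 p x = ‖x‖ := rfl

theorem mu52_map (x : ℚ_[p]) : mu52 p (algebraMap ℚ_[p] (PadicAlgCl p) x) = ‖x‖ :=
  PadicAlgCl.norm_extends p x

theorem curve (hd : 2 ≤ d) {Φ : Fin (m + 1) → MvPolynomial (Fin (m + 1)) ℚ_[p]}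
    (hΦ : Good p m d Φ) {I : Ideal (MvPolynomial (Fin (m + 1)) ℚ_[p])}
    (hI : ∀ P : Ideal (MvPolynomial (Fin (m + 1)) ℚ_[p]), P.IsPrime → I ≤ P →
      Algebra.trdeg ℚ_[p] (MvPolynomial (Fin (m + 1)) ℚ_[p] ⧸ P) ≤ 1)
    {x : Fin (m + 1) → ℚ_[p]} (hx : Esc x) :
    {n | ∀ f ∈ I, eval ((pm Φ)^[n] x) f = 0}.Finite ∨
      {n | ∀ f ∈ I, eval ((pm Φ)^[n] x) f = 0}ᶜ.Finite := by
  classical
  obtain ⟨yst, hlim, halt⟩ := local_curve hd hΦ hx
  obtain ⟨s, hs⟩ := (isNoetherianRing_iff_ideal_fg _).1 inferInstance I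
  have hall : ∀ n, (∀ f ∈ I, eval ((pm Φ)^[n] x) f = 0) ↔ ∀ f ∈ s, eval ((pm Φ)^[n] x) f = 0 := by
    intro n
    constructor
    · intro h f hf
      refine h f ?_
      rw [← hs]
      exact Ideal.subset_span hf
    · intro h f hf
      rw [← hs] at hf
      have h2 : Ideal.span (s : Set (MvPolynomial (Fin (m + 1)) ℚ_[p])) ≤
          RingHom.ker (eval ((pm Φ)^[n] x)) := Ideal.span_le.2 fun f hf => h f hf
      exact h2 hf
  rcases halt with halt | ⟨c, hc, hlow⟩
  · -- exact case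
    by_cases h : ∀ f ∈ s, ∀ᶠ n in atTop, eval ((pm Φ)^[n] x) f = 0
    · right
      have h1 : ∀ᶠ n in atTop, ∀ f ∈ s, eval ((pm Φ)^[n] x) f = 0 :=
        (Filter.eventually_all_finset s).2 h
      rw [← Nat.cofinite_eq_atTop] at h1
      refine h1.subset fun n hn => ?_
      intro h2
      exact hn ((hall n).2 h2)
    · left
      obtain ⟨f, hf, h1⟩ : ∃ f ∈ s, ¬ ∀ᶠ n in atTop, eval ((pm Φ)^[n] x) f = 0 := by
        by_contra hcon
        refine h fun f hf => ?_
        by_contra hcon2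
        exact hcon ⟨f, hf, hcon2⟩
      have h2 : ∀ᶠ n in atTop, eval ((pm Φ)^[n] x) f ≠ 0 := (halt f).resolve_left h1
      rw [← Nat.cofinite_eq_atTop] at h2
      refine h2.subset fun n hn => ?_
      intro h3
      exact h3 ((hall n).1 hn f hf)
  · -- the orbit is too far from its limit
    left
    by_contra hinf
    have hinf' : {n | ∀ f ∈ I, eval ((pm Φ)^[n] x) f = 0}.Infinite := hinf
    have hne : (cofinite ⊓ 𝓟 {n | ∀ f ∈ I, eval ((pm Φ)^[n] x) f = 0}).NeBot :=
      cofinite_inf_principal_neBot_iff.2 hinf'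
    let U : Ultrafilter ℕ := Ultrafilter.of (cofinite ⊓ 𝓟 {n | ∀ f ∈ I, eval ((pm Φ)^[n] x) f = 0})
    have hU0 : (U : Filter ℕ) ≤ cofinite ⊓ 𝓟 {n | ∀ f ∈ I, eval ((pm Φ)^[n] x) f = 0} :=
      Ultrafilter.of_le _
    have hU : (U : Filter ℕ) ≤ atTop := by
      rw [← Nat.cofinite_eq_atTop]
      exact hU0.trans inf_le_left
    have hR : ∀ᶠ n in (U : Filter ℕ), ∀ f ∈ I, eval ((pm Φ)^[n] x) f = 0 :=
      hU0.trans inf_le_right (mem_principal_self _)
    let X : ℕ → Fin (m + 1) → ℚ_[p] := fun n => (pm Φ)^[n] x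
    let y := emb (PadicAlgCl p) X
    have hyv : ∀ n j, mu52 p (y n j) = ‖X n j‖ := fun n j => mu52_map _
    have hp1 : (1 : ℝ) < p := by exact_mod_cast hp.out.one_lt
    have hp0 : (0 : ℝ) < p := by linarith
    have hesc := esc_iter52 hd hΦ hx
    have hszge : ∀ n, (p : ℝ) ^ 2 ^ n ≤ sz (mu52 p) (y n) := by
      intro n
      refine (hesc n).2.trans ?_
      unfold sz
      have h1 : mu52 p (y n 0) ≤ ∑ i, mu52 p (y n i) :=
        Finset.single_le_sum (f := fun i => mu52 p (y n i)) (fun i _ => (mu52 p).nonneg _)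
          (Finset.mem_univ 0)
      rw [hyv] at h1
      have : ‖(pm Φ)^[n] x 0‖ = ‖X n 0‖ := rfl
      linarith
    have hpow : Tendsto (fun n : ℕ => (2 : ℝ) ^ n) atTop atTop :=
      tendsto_pow_atTop_atTop_of_one_lt (by norm_num)
    have hcv : Cv (mu52 p) U y := by
      refine ⟨?_, trdeg_emb (hI _ (Pool.Agent.Helper26.RC.van_prime U X) fun f hf => ?_)⟩
      · have h1 : Tendsto (fun n : ℕ => (2 : ℝ) ^ n * Real.log p) (U : Filter ℕ) atTop :=
          (hpow.atTop_mul_const (Real.log_pos hp1)).mono_left hU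
        refine tendsto_atTop_mono (fun n => ?_) h1
        have h2 := Real.log_le_log (by positivity) (hszge n)
        rw [Real.log_pow] at h2
        push_cast at h2
        exact h2
      · rw [mem_van]
        filter_upwards [hR] with n hn
        exact hn f hf
    obtain ⟨q, i, hqi, -, C, η, hC, hη, hev⟩ := dir_exists hcv
    -- smallness
    have hev2 : ∀ᶠ n in (U : Filter ℕ), C * sz (mu52 p) (y n) ^ (-η) ≤ C * ((p : ℝ) ^ (-(η * 2 ^ n))) := by
      refine Eventually.of_forall fun n => mul_le_mul_of_nonneg_left ?_ hC.le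
      have h1 : (0 : ℝ) < (p : ℝ) ^ 2 ^ n := by positivity
      calc sz (mu52 p) (y n) ^ (-η) ≤ ((p : ℝ) ^ 2 ^ n) ^ (-η) :=
            Real.rpow_le_rpow_of_nonpos h1 (hszge n) (by linarith)
        _ = (p : ℝ) ^ (-(η * 2 ^ n)) := by
            rw [← Real.rpow_natCast, ← Real.rpow_mul hp0.le]
            congr 1
            push_cast
            ring
    have hsm : Tendsto (fun n : ℕ => C * ((p : ℝ) ^ (-(η * 2 ^ n)))) (U : Filter ℕ) (𝓝 0) := by
      have h1 : Tendsto (fun n : ℕ => (p : ℝ) ^ (-(η * 2 ^ n))) atTop (𝓝 0) := by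
        have h2 : Tendsto (fun n : ℕ => η * (2 : ℝ) ^ n) atTop atTop := hpow.const_mul_atTop hη
        have h3 := (tendsto_rpow_atBot_of_base_gt_one (p : ℝ) hp1).comp (tendsto_neg_atTop_atBot.comp h2)
        exact h3
      have h4 := (h1.const_mul C).mono_left hU
      rw [mul_zero] at h4
      exact h4
    have hq0 : 1 / 2 ≤ mu52 p (q 0) := by
      obtain ⟨n, ⟨h1, h2⟩, h3⟩ := ((hev.and hev2).and (hsm.eventually (gt_mem_nhds
        (show (0 : ℝ) < 1 / 2 by norm_num)))).exists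
      have h4 := (h1.2.2 0).trans (h2.trans h3.le)
      have h5 : 1 ≤ mu52 p (y n 0 / y n i) := by
        rw [map_div₀, one_le_div ((mu52 p).pos h1.1), hyv, hyv]
        exact (hesc n).1.2 i
      have h6 := (mu52 p).add_le (y n 0 / y n i - q 0) (q 0)
      rw [sub_add_cancel] at h6
      linarith
    have hq00 : q 0 ≠ 0 := by
      intro h0
      rw [h0, map_zero] at hq0
      norm_num at hq0
    have hbd : ∀ j, ∀ᶠ n in (U : Filter ℕ), mu52 p (y n j / y n 0 - q j / q 0) ≤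
        2 * (mu52 p (q 0) + mu52 p (q j)) * (C * ((p : ℝ) ^ (-(η * 2 ^ n)))) := by
      intro j
      filter_upwards [hev, hev2] with n h1 h2
      have h3 := fun j => (h1.2.2 j).trans h2
      set ε := C * ((p : ℝ) ^ (-(η * 2 ^ n)))
      have hyi := h1.1
      have hy0 : y n 0 ≠ 0 := by
        intro h0
        have h5 : mu52 p (y n 0) = 0 := by rw [h0, map_zero]
        rw [hyv] at h5
        have h6 := (hesc n).1.1
        have : ‖(pm Φ)^[n] x 0‖ = ‖X n 0‖ := rfl
        linarith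
      have h5 : 1 ≤ mu52 p (y n 0 / y n i) := by
        rw [map_div₀, one_le_div ((mu52 p).pos h1.1), hyv, hyv]
        exact (hesc n).1.2 i
      have e1 : y n j / y n 0 - q j / q 0 = ((y n j / y n i - q j) * q 0 -
          q j * (y n 0 / y n i - q 0)) / (y n 0 / y n i * q 0) := by
        field_simp
        ring
      rw [e1, map_div₀, map_mul, div_le_iff₀ (by
        refine mul_pos (by linarith) (by linarith))]
      have h6 : mu52 p ((y n j / y n i - q j) * q 0 - q j * (y n 0 / y n i - q 0)) ≤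
          ε * mu52 p (q 0) + mu52 p (q j) * ε := by
        rw [sub_eq_add_neg]
        refine ((mu52 p).add_le _ _).trans (add_le_add ?_ ?_)
        · rw [map_mul]
          exact mul_le_mul_of_nonneg_right (h3 j) ((mu52 p).nonneg _)
        · rw [(mu52 p).map_neg, map_mul]
          exact mul_le_mul_of_nonneg_left (h3 0) ((mu52 p).nonneg _)
      refine h6.trans ?_
      have hε : 0 ≤ ε := ((mu52 p).nonneg _).trans (h3 j)
      have h7 : 1 / 2 ≤ mu52 p (y n 0 / y n i) * mu52 p (q 0) := by nlinarith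
      have h8 : 0 ≤ (mu52 p (q 0) + mu52 p (q j)) * ε :=
        mul_nonneg (add_nonneg ((mu52 p).nonneg _) ((mu52 p).nonneg _)) hε
      nlinarith
    -- the limit
    have hqst : ∀ i : Fin m, q i.succ / q 0 = algebraMap ℚ_[p] (PadicAlgCl p) (yst i) := by
      intro j
      have h1 : Tendsto (fun n => mu52 p (y n j.succ / y n 0 - q j.succ / q 0)) (U : Filter ℕ) (𝓝 0) := by
        have h2 := hsm.const_mul (2 * (mu52 p (q 0) + mu52 p (q j.succ)))
        rw [mul_zero] at h2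
        exact squeeze_zero' (Eventually.of_forall fun n => (mu52 p).nonneg _) (hbd j.succ) h2
      have h3 : Tendsto (fun n => mu52 p (y n j.succ / y n 0 - algebraMap ℚ_[p] (PadicAlgCl p) (yst j)))
          (U : Filter ℕ) (𝓝 0) := by
        have h4 := ((hlim j).mono_left hU).sub_const (yst j)
        rw [sub_self] at h4
        have h5 := h4.norm
        rw [norm_zero] at h5
        refine h5.congr fun n => ?_
        rw [← mu52_map, map_sub, map_div₀]
        rfl
      have h6 := h1.add h3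
      rw [add_zero] at h6
      have h7 : mu52 p (q j.succ / q 0 - algebraMap ℚ_[p] (PadicAlgCl p) (yst j)) ≤ 0 := by
        refine ge_of_tendsto h6 (Eventually.of_forall fun n => ?_)
        have e1 : q j.succ / q 0 - algebraMap ℚ_[p] (PadicAlgCl p) (yst j) =
            -(y n j.succ / y n 0 - q j.succ / q 0) +
              (y n j.succ / y n 0 - algebraMap ℚ_[p] (PadicAlgCl p) (yst j)) := by ring
        rw [e1]
        refine ((mu52 p).add_le _ _).trans ?_
        rw [(mu52 p).map_neg]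
      have h8 : mu52 p (q j.succ / q 0 - algebraMap ℚ_[p] (PadicAlgCl p) (yst j)) = 0 :=
        le_antisymm h7 ((mu52 p).nonneg _)
      exact sub_eq_zero.1 ((mu52 p).eq_zero.1 h8)
    -- contradiction
    set M : ℝ := ∑ j : Fin (m + 1), 2 * (mu52 p (q 0) + mu52 p (q j)) with hM
    have hM0 : ∀ j, 2 * (mu52 p (q 0) + mu52 p (q j)) ≤ M := by
      intro j
      exact Finset.single_le_sum (f := fun j => 2 * (mu52 p (q 0) + mu52 p (q j)))
        (fun j _ => mul_nonneg (by norm_num) (add_nonneg ((mu52 p).nonneg _) ((mu52 p).nonneg _)))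
        (Finset.mem_univ j)
    have hall2 : ∀ᶠ n in (U : Filter ℕ), ∀ j, mu52 p (y n j / y n 0 - q j / q 0) ≤
        2 * (mu52 p (q 0) + mu52 p (q j)) * (C * ((p : ℝ) ^ (-(η * 2 ^ n)))) := eventually_all.2 hbd
    have hgrow : ∀ᶠ n : ℕ in atTop, (n : ℝ) ≤ η / 2 * 2 ^ n := by
      have h1 := tendsto_pow_const_div_const_pow_of_one_lt 1 (show (1 : ℝ) < 2 by norm_num)
      have h2 := h1.eventually (gt_mem_nhds (show (0 : ℝ) < η / 2 by linarith))
      filter_upwards [h2] with n hn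
      rw [pow_one, div_lt_iff₀ (by positivity)] at hn
      exact hn.le
    have hlast : Tendsto (fun n : ℕ => M * (C * ((p : ℝ)⁻¹) ^ n)) (U : Filter ℕ) (𝓝 0) := by
      have h1 := ((tendsto_pow_atTop_nhds_zero_of_lt_one (inv_nonneg.2 hp0.le)
        (inv_lt_one_of_one_lt₀ hp1)).const_mul C).const_mul M
      rw [mul_zero, mul_zero] at h1
      exact h1.mono_left hU
    obtain ⟨n, ⟨⟨h1, h2⟩, hlown⟩, h3⟩ := (((hall2.and (hU hgrow)).and (hU hlow)).and
      (hlast.eventually (gt_mem_nhds hc))).exists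
    obtain ⟨i, hi⟩ := hlown
    have e1 : ‖(pm Φ)^[n] x i.succ / (pm Φ)^[n] x 0 - yst i‖ =
        mu52 p (y n i.succ / y n 0 - q i.succ / q 0) := by
      rw [hqst, ← mu52_map, map_sub, map_div₀]
      rfl
    rw [e1] at hi
    have h4 := hi.trans (h1 i.succ)
    have h5 : (p : ℝ) ^ (-(η * 2 ^ n)) ≤ ((p : ℝ)⁻¹) ^ n * ((p : ℝ)⁻¹) ^ n := by
      have e : ((p : ℝ)⁻¹) ^ n = (p : ℝ) ^ (-(n : ℝ)) := by
        rw [Real.rpow_neg hp0.le, Real.rpow_natCast, inv_pow]
      rw [e, ← Real.rpow_add hp0]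
      refine Real.rpow_le_rpow_of_exponent_le hp1.le ?_
      linarith
    have h6 : 0 < ((p : ℝ)⁻¹) ^ n := by positivity
    have h7 : c * ((p : ℝ)⁻¹) ^ n ≤ M * (C * (((p : ℝ)⁻¹) ^ n * ((p : ℝ)⁻¹) ^ n)) := by
      refine h4.trans ?_
      refine mul_le_mul (hM0 _) (mul_le_mul_of_nonneg_left h5 hC.le) (by positivity) ?_
      exact (mul_nonneg (by norm_num) (add_nonneg ((mu52 p).nonneg _) ((mu52 p).nonneg _))).trans
        (hM0 0)
    have h8 : c ≤ M * (C * ((p : ℝ)⁻¹) ^ n) := by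
      refine le_of_mul_le_mul_right ?_ h6
      calc c * ((p : ℝ)⁻¹) ^ n ≤ _ := h7
        _ = _ := by ring
    linarith

/-- The same for the zero set of a set of polynomials. -/
theorem curve_set (hd : 2 ≤ d) {Φ : Fin (m + 1) → MvPolynomial (Fin (m + 1)) ℚ_[p]}
    (hΦ : Good p m d Φ) {V : Set (MvPolynomial (Fin (m + 1)) ℚ_[p])}
    (hV : ∀ P : Ideal (MvPolynomial (Fin (m + 1)) ℚ_[p]), P.IsPrime → V ⊆ P →
      Algebra.trdeg ℚ_[p] (MvPolynomial (Fin (m + 1)) ℚ_[p] ⧸ P) ≤ 1)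
    {x : Fin (m + 1) → ℚ_[p]} (hx : Esc x) :
    {n | ∀ f ∈ V, eval ((pm Φ)^[n] x) f = 0}.Finite ∨
      {n | ∀ f ∈ V, eval ((pm Φ)^[n] x) f = 0}ᶜ.Finite := by
  have h := curve hd hΦ (I := Ideal.span V) (fun P hP hle => hV P hP
    (Ideal.subset_span.trans hle)) hx
  have e : {n | ∀ f ∈ Ideal.span V, eval ((pm Φ)^[n] x) f = 0} =
      {n | ∀ f ∈ V, eval ((pm Φ)^[n] x) f = 0} := by
    ext n
    constructor
    · intro h f hf
      exact h f (Ideal.subset_span hf)
    · intro h f hf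
      have h2 : Ideal.span V ≤ RingHom.ker (eval ((pm Φ)^[n] x)) := Ideal.span_le.2 fun f hf => h f hf
      exact h2 hf
  rwa [e] at h

end Pool.Agent.Helper52.MQ
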